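import Pool.Agent.Lib.MP_425be5_nt.Main

/-!
Strict running maxima of concatenations of blocks, and the invariant of the tower words.
-/

namespace Pool.Agent.Lib.MP_425be5_nt_X

open Pool.Agent.Lib.MP_425be5_nt

/-- `B` is the first place at which the partial sums of `W` reach their maximum `H`. -/
def FA (W : List ℤ) (B : ℕ) (H : ℤ) : Prop :=
  B < W.length ∧ Rec (W.take B) ∧ (W.take B).sum = H ∧ mx W = H

theorem FA.unique {W : List ℤ} {B n : ℕ} {H : ℤ} (h : FA W B H) (hr : Rec (W.take n))
    (hn : n < W.length) (hs : H ≤ (W.take n).sum) : n = B := by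
  obtain ⟨h1, h2, h3, h4⟩ := h
  have h5 := sum_take_le_mx W n hn
  rcases lt_trichotomy n B with h6 | h6 | h6
  · have := sum_take_le_mx (W.take B) n (by rw [List.length_take]; omega)
    rw [List.take_take, min_eq_left h6.le] at this
    simp only [Rec] at h2
    omega
  · exact h6
  · have := sum_take_le_mx (W.take n) B (by rw [List.length_take]; omega)
    rw [List.take_take, min_eq_left h6.le] at this
    simp only [Rec] at hr
    omega

theorem rec_append (F W : List ℤ) (n : ℕ) : Rec ((F ++ W).take (F.length + n)) ↔
    mx F < F.sum + (W.take n).sum ∧ Rec (W.take n) := by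
  rw [List.take_length_add_append]
  simp only [Rec, mx_append, List.sum_append]
  omega

/-- Concatenation of the first blocks. -/
def cat (V : ℕ → List ℤ) : ℕ → List ℤ
  | 0 => []
  | j + 1 => cat V j ++ V j

theorem cat_ub {V : ℕ → List ℤ} {U : ℤ} (hU : -1 ≤ U) :
    ∀ j, (∀ i < j, (cat V i).sum + mx (V i) ≤ U) → mx (cat V j) ≤ U
  | 0, _ => hU
  | j + 1, h => by
    have h1 := cat_ub hU j (fun i hi => h i (by omega))
    have h2 := h j (by omega)
    simp only [cat, mx_append]
    omega

theorem cat_fa {V : ℕ → List ℤ} {q B m : ℕ} {H : ℤ} :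
    ∀ j, (∀ i < j, (V i).length = q) → (∀ i ≤ j, i ≤ m → (cat V i).sum = i ∧ FA (V i) B H) →
      (∀ i ≤ j, m < i → (cat V i).sum + mx (V i) ≤ H + m) →
      (cat V j).length = j * q ∧
      FA (cat V (j + 1)) (min j m * q + B) (H + min j m) ∧
      (∀ x < (cat V (j + 1)).length, Rec ((cat V (j + 1)).take x) ↔
        (x < (V 0).length ∧ Rec ((V 0).take x)) ∨ ∃ i, 1 ≤ i ∧ i ≤ min j m ∧ x = i * q + B) ∧
      ∀ i ≤ min j m, ((cat V (j + 1)).take (i * q + B)).sum = H + i
  | 0, _, h2, _ => by
    obtain ⟨_, h⟩ := h2 0 le_rfl (Nat.zero_le _)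
    refine ⟨by simp [cat], by simpa [cat] using h, fun x hx => ?_, fun i hi => ?_⟩
    · simp only [cat, List.nil_append] at hx ⊢
      constructor
      · exact fun h => Or.inl ⟨hx, h⟩
      · rintro (h | ⟨i, h1, h2, _⟩)
        · exact h.2
        · omega
    · have : i = 0 := by omega
      subst this
      simpa [cat] using h.2.2.1
  | j + 1, h1, h2, h3 => by
    obtain ⟨i1, i2, i3, i4⟩ := cat_fa j (fun i hi => h1 i (by omega))
      (fun i hi => h2 i (by omega)) (fun i hi => h3 i (by omega))
    have hlen : (cat V (j + 1)).length = (j + 1) * q := by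
      rw [cat, List.length_append, i1, h1 j (by omega)]; ring
    have hold : ∀ x < (cat V (j + 1)).length,
        (cat V (j + 1 + 1)).take x = (cat V (j + 1)).take x := fun x hx => by
      rw [cat.eq_2 V (j + 1), List.take_append_of_le_length hx.le]
    have hV0 : (V 0).length = q := h1 0 (by omega)
    have hmx := i2.2.2.2
    rcases le_or_gt (j + 1) m with hm | hm
    · obtain ⟨h4, h5⟩ := h2 (j + 1) le_rfl hm
      rw [min_eq_left (by omega : j ≤ m)] at i2 i3 i4 hmx
      rw [min_eq_left hm]
      have hnew : ((cat V (j + 1 + 1)).take ((j + 1) * q + B)).sum = H + (j + 1 : ℕ) := by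
        rw [cat.eq_2 V (j + 1), ← hlen, List.take_length_add_append, List.sum_append, h4,
          h5.2.2.1]
        ring
      refine ⟨hlen, ⟨?_, ?_, hnew, ?_⟩, fun x hx => ?_, fun i hi => ?_⟩
      · rw [cat.eq_2 V (j + 1), List.length_append, hlen]
        have := h5.1
        omega
      · rw [cat.eq_2 V (j + 1), ← hlen, rec_append, hmx, h4, h5.2.2.1]
        exact ⟨by push_cast; omega, h5.2.1⟩
      · rw [cat.eq_2 V (j + 1), mx_append, hmx, h4, h5.2.2.2]
        push_cast
        omega
      · rcases lt_or_ge x (cat V (j + 1)).length with h6 | h6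
        · rw [hold x h6, i3 x h6]
          refine or_congr Iff.rfl ⟨?_, ?_⟩
          · rintro ⟨i, a1, a2, a3⟩
            exact ⟨i, a1, by omega, a3⟩
          · rintro ⟨i, a1, a2, a3⟩
            refine ⟨i, a1, ?_, a3⟩
            by_contra a4
            have : i = j + 1 := by omega
            rw [this] at a3
            omega
        · obtain ⟨n, rfl⟩ := Nat.exists_eq_add_of_le h6
          rw [cat.eq_2 V (j + 1), List.length_append] at hx
          rw [cat.eq_2 V (j + 1), rec_append, hmx, h4]
          constructor
          · rintro ⟨a1, a2⟩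
            have := h5.unique a2 (by omega) (by push_cast at a1; omega)
            exact Or.inr ⟨j + 1, by omega, le_rfl, by rw [hlen, this]⟩
          · rintro (⟨a1, _⟩ | ⟨i, a1, a2, a3⟩)
            · rw [hlen, hV0] at a1
              nlinarith
            · have a4 : i = j + 1 := by
                by_contra a4
                have a5 := (i4 i (by omega))
                have a6 : i * q + B < (cat V (j + 1)).length := by
                  have := i2.1
                  have : i * q ≤ j * q := Nat.mul_le_mul_right _ (by omega)
                  omega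
                omega
              have a5 : n = B := by rw [hlen, a4] at a3; omega
              rw [a5, h5.2.2.1]
              exact ⟨by push_cast; omega, h5.2.1⟩
      · rcases hi.lt_or_eq with h6 | h6
        · have := i2.1
          have : i * q ≤ j * q := Nat.mul_le_mul_right _ (by omega)
          rw [hold _ (by omega), i4 i (by omega)]
        · rw [h6, hnew]
    · have h4 := h3 (j + 1) le_rfl hm
      rw [min_eq_right (by omega : m ≤ j)] at i2 i3 i4 hmx
      rw [min_eq_right hm.le]
      refine ⟨hlen, ⟨?_, ?_, ?_, ?_⟩, fun x hx => ?_, fun i hi => ?_⟩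
      · rw [cat.eq_2 V (j + 1), List.length_append]
        have := i2.1
        omega
      · rw [hold _ i2.1]; exact i2.2.1
      · rw [hold _ i2.1]; exact i2.2.2.1
      · rw [cat.eq_2 V (j + 1), mx_append, hmx]
        omega
      · rcases lt_or_ge x (cat V (j + 1)).length with h6 | h6
        · rw [hold x h6, i3 x h6]
        · obtain ⟨n, rfl⟩ := Nat.exists_eq_add_of_le h6
          rw [cat.eq_2 V (j + 1), List.length_append] at hx
          rw [cat.eq_2 V (j + 1), rec_append, hmx]
          have := sum_take_le_mx (V (j + 1)) n (by omega)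
          constructor
          · rintro ⟨a1, _⟩
            omega
          · rintro (⟨a1, _⟩ | ⟨i, a1, a2, a3⟩)
            · rw [hlen, hV0] at a1
              nlinarith
            · have := i2.1
              have : i * q ≤ m * q := Nat.mul_le_mul_right _ a2
              omega
      · have := i2.1
        have : i * q ≤ m * q := Nat.mul_le_mul_right _ hi
        rw [hold _ (by omega), i4 i hi]

end Pool.Agent.Lib.MP_425be5_nt_X
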