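import Pool.Agent.Lib.MP_425be5_nt.Defs

/-!
The digits `m_i` which describe the records of `S_n(2ξ)`.
-/

namespace Pool.Agent.Lib.MP_425be5_nt_X

open Pool.Agent.Lib.MP_425be5_nt

/-- The number `m_i`: it is `0` if `q_i` is even, `ceil (a_(i+1) / 2)` if `q_i` and `q_(i-1)` are
odd, and `floor (a_(i+1) / 2)` if `q_i` is odd and `q_(i-1)` is even (with `q_(-1) = 0`). -/
noncomputable def mark (ξ : ℝ) (i : ℕ) : ℕ :=
  if den ξ i % 2 = 0 then 0
  else if 1 ≤ i ∧ den ξ (i - 1) % 2 = 1 then (pq ξ (i + 1) + 1) / 2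
  else pq ξ (i + 1) / 2

end Pool.Agent.Lib.MP_425be5_nt_X
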