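import Pool.Agent.Lib.MP_425be5_nt_X.Step
import Pool.Agent.Lib.MP_425be5_nt_X.Defs

/-!
The closed form of the records.
-/

namespace Pool.Agent.Lib.MP_425be5_nt_X

open Pool.Agent.Lib.MP_425be5_nt

/-- The digits of the records of parity `p`. -/
def mu (a : ℕ → ℕ) (p k : ℕ) : ℕ := mu1 (decide (k % 2 = p % 2)) (ty a k) (a k)

/-- The last record below `q_k`. -/
def Bs (a : ℕ → ℕ) (p k : ℕ) : ℕ := ∑ i ∈ Finset.range k, mu a p i * Qn a (i + 1)

/-- Its height. -/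
def Hs (a : ℕ → ℕ) (p k : ℕ) : ℕ := ∑ i ∈ Finset.range k, mu a p i

theorem sumInv_par {a : ℕ → ℕ} (ha : ∀ k, 1 ≤ a k) (p k : ℕ) :
    SumInv (ty a k) (if decide (k % 2 = p % 2) then -1 else 1)
      (Lw a ((-1) ^ p) k false).sum (Lw a ((-1) ^ p) k true).sum
      (Sw a ((-1) ^ p) k false).sum (Sw a ((-1) ^ p) k true).sum := by
  have h := sumInv (e := (-1) ^ p) ha k
  have : -(-1 : ℤ) ^ p * (-1) ^ k = if decide (k % 2 = p % 2) then -1 else 1 := by
    rw [neg_mul, ← pow_add]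
    by_cases h1 : k % 2 = p % 2
    · rw [Even.neg_one_pow (Nat.even_iff.mpr (by omega))]; simp [h1]
    · rw [Odd.neg_one_pow (Nat.odd_iff.mpr (by omega))]; simp [h1]
  rwa [this] at h

theorem inv_level {a : ℕ → ℕ} (ha : ∀ k, 1 ≤ a k) (p : ℕ) : ∀ k,
    Inv (ty a k) (decide (k % 2 = p % 2)) (Lw a ((-1) ^ p) k) (Sw a ((-1) ^ p) k)
      (Bs a p k) (Hs a p k)
  | 0 => by
    rcases neg_one_pow_eq_or ℤ p with h | h <;>
      simp [ty, Inv, FA, Lw_zero, Sw_zero, Bs, Hs, Rec, mx, h]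
  | k + 1 => by
    have h := inv_step _ _ _ _ (a k) (Qn a (k + 1)) _ _ (ha k) (by positivity)
      (length_LS a _ k).1 (sumInv_par ha p k) (inv_level ha p k)
    have h1 : (!decide (k % 2 = p % 2)) = decide ((k + 1) % 2 = p % 2) := by
      by_cases h2 : k % 2 = p % 2
      · simp only [h2, decide_true, Bool.not_true]; symm; simp; omega
      · simp only [h2, decide_false, Bool.not_false]; symm; simp; omega
    have h2 : Bs a p (k + 1) = mu a p k * Qn a (k + 1) + Bs a p k := by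
      rw [Bs, Finset.sum_range_succ, add_comm]; rfl
    have h3 : (Hs a p (k + 1) : ℤ) = Hs a p k + mu a p k := by
      rw [Hs, Finset.sum_range_succ]; push_cast; simp [Hs]
    rw [h1] at h
    rw [h2, h3]
    exact h

theorem desc_level {a : ℕ → ℕ} (ha : ∀ k, 1 ≤ a k) (p k : ℕ) :
    Desc (Lw a ((-1) ^ p) (k + 1) (decide (ty a (k + 1) = .tN)))
      (Lw a ((-1) ^ p) k (side (bt a k) 0 (decide (ty a (k + 1) = .tN))))
      (Qn a (k + 1)) (Bs a p k) (mu a p k) (Hs a p k) :=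
  desc_step _ _ _ _ (a k) (Qn a (k + 1)) _ _ (ha k) (length_LS a _ k).1 (sumInv_par ha p k)
    (inv_level ha p k)

variable {ξ : ℝ}

theorem lt_Q (h : Irrational ξ) (p j : ℕ) {b : ℕ} (hb : b ≤ mu (aa ξ) p j) :
    b * Q ξ (j + 1) + Bs (aa ξ) p j < Q ξ (j + 2) := by
  have h1 := (desc_level (a := aa ξ) (one_le_pq h) p j).1.1
  rw [(length_LS _ _ _).1, Qn_eq, Qn_eq] at h1
  have := Nat.mul_le_mul_right (Q ξ (j + 1)) hb
  show _ < Q ξ (j + 1 + 1)
  omega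

theorem take_Lw (h : Irrational ξ) (e : ℤ) (k : ℕ) {x : ℕ} (hx : x < Q ξ (k + 2)) :
    (Lw (aa ξ) e (k + 1) (decide (ty (aa ξ) (k + 1) = .tN))).take x = orb ξ e 0 x := by
  rw [← orb_zero h, orb_take _ _ hx.le]

theorem value (h : Irrational ξ) (p j : ℕ) {b : ℕ} (hb : b ≤ mu (aa ξ) p j) :
    (-1) ^ p * T ξ (b * Q ξ (j + 1) + Bs (aa ξ) p j) = Hs (aa ξ) p j + b := by
  have h1 := (desc_level (a := aa ξ) (one_le_pq h) p j).2.2 b hb
  rwa [Qn_eq, take_Lw h _ _ (lt_Q h p j hb), sum_orb] at h1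

theorem rec_level (h : Irrational ξ) (p : ℕ) : ∀ k x, x < Q ξ (k + 1) →
    (Rec (orb ξ ((-1) ^ p) 0 x) ↔ x = 0 ∨ ∃ j < k, ∃ b, 1 ≤ b ∧ b ≤ mu (aa ξ) p j ∧
      x = b * Q ξ (j + 1) + Bs (aa ξ) p j)
  | 0, x, hx => by
    have : x = 0 := by rw [Q_one] at hx; omega
    simp [this, orb, Rec, mx]
  | k + 1, x, hx => by
    have h1 := (desc_level (a := aa ξ) (one_le_pq h) p k).2.1 x
      (by rw [(length_LS _ _ _).1, Qn_eq]; exact hx)
    rw [(length_LS _ _ _).1, Qn_eq, take_Lw h _ _ hx] at h1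
    have h2 : x < Q ξ (k + 1) → (Lw (aa ξ) ((-1) ^ p) k
        (side (bt (aa ξ) k) 0 (decide (ty (aa ξ) (k + 1) = .tN)))).take x
        = orb ξ ((-1) ^ p) 0 x := by
      intro h3
      obtain ⟨Z, hZ⟩ := pre_prefix (Lw (aa ξ) ((-1) ^ p) k) (bt (aa ξ) k)
        (decide (ty (aa ξ) (k + 1) = .tN)) 1 (aa ξ k - 1)
      rw [show 1 + (aa ξ k - 1) = aa ξ k by have := one_le_pq h k; simp only [aa]; omega] at hZ
      rw [← take_Lw h _ _ hx, Lw_succ, hZ, List.append_assoc, pre, pre, List.nil_append,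
        List.take_append_of_le_length (by rw [(length_LS _ _ _).1, Qn_eq]; exact h3.le)]
    rw [h1]
    constructor
    · rintro (⟨h3, h4⟩ | ⟨i, h3, h4, h5⟩)
      · rw [h2 h3, rec_level h p k x h3] at h4
        rcases h4 with h4 | ⟨j, hj, h4⟩
        · exact Or.inl h4
        · exact Or.inr ⟨j, by omega, h4⟩
      · exact Or.inr ⟨k, by omega, i, h3, h4, h5⟩
    · rintro (h3 | ⟨j, hj, b, h3, h4, h5⟩)
      · have h4 : x < Q ξ (k + 1) := by have := Q_pos h k; omega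
        exact Or.inl ⟨h4, by rw [h2 h4, rec_level h p k x h4]; exact Or.inl h3⟩
      · rcases (Nat.lt_succ_iff.mp hj).lt_or_eq with h6 | h6
        · have h7 : x < Q ξ (k + 1) := by
            have := lt_Q h p j h4
            have : Q ξ (j + 2) ≤ Q ξ (k + 1) :=
              monotone_nat_of_le_succ (Q_le_succ h) (by omega)
            omega
          exact Or.inl ⟨h7, by
            rw [h2 h7, rec_level h p k x h7]; exact Or.inr ⟨j, h6, b, h3, h4, h5⟩⟩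
        · subst h6
          exact Or.inr ⟨b, h3, h4, h5⟩

theorem rec_iff (h : Irrational ξ) (p x : ℕ) : Rec (orb ξ ((-1) ^ p) 0 x) ↔
    x = 0 ∨ ∃ j b, 1 ≤ b ∧ b ≤ mu (aa ξ) p j ∧ x = b * Q ξ (j + 1) + Bs (aa ξ) p j := by
  constructor
  · intro h1
    rcases (rec_level h p (x + 1) x (le_Q h (x + 1))).mp h1 with h2 | ⟨j, _, h2⟩
    · exact Or.inl h2
    · exact Or.inr ⟨j, h2⟩
  · rintro (h1 | ⟨j, b, h1, h2, h3⟩)
    · simp [h1, orb, Rec, mx]
    · exact (rec_level h p (j + 1) x (h3 ▸ lt_Q h p j h2)).mpr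
        (Or.inr ⟨j, by omega, b, h1, h2, h3⟩)

/-- The position of the marked point is the parity of two consecutive denominators. -/
def Par : Ty → ℕ → ℕ → Prop
  | .tL, x, y => x % 2 = 0 ∧ y % 2 = 1
  | .tM, x, y => x % 2 = 1 ∧ y % 2 = 1
  | .tN, x, y => x % 2 = 1 ∧ y % 2 = 0
  | .tP, x, y => x % 2 = 0 ∧ y % 2 = 1

theorem par (a : ℕ → ℕ) : ∀ k, Par (ty a k) (Qn a k) (Qn a (k + 1))
  | 0 => by simp [ty, Par, Qn]
  | k + 1 => by
    have h := par a k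
    rw [ty, Qn]
    generalize ty a k = t at h
    rcases Nat.mod_two_eq_zero_or_one (a k) with h1 | h1 <;> cases t <;>
      simp only [Par] at h <;>
      simp [nxt, Par, h1, h.1, h.2, Nat.add_mod, Nat.mul_mod]

theorem mark_eq (ξ : ℝ) (k : ℕ) : mark ξ k = mk (ty (aa ξ) k) (aa ξ k) := by
  have h := par (aa ξ) k
  rw [Qn_eq, Qn_eq] at h
  cases k with
  | zero => simp [mark, den, ty, mk, aa]
  | succ k =>
    simp only [Q] at h
    generalize ty (aa ξ) (k + 1) = t at h ⊢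
    cases t <;> simp only [Par] at h <;> simp [mark, aa, mk, h.1, h.2]

theorem mu_eq (ξ : ℝ) (p k : ℕ) : mu (aa ξ) p k = if k % 2 = p % 2 then mark ξ k else 0 := by
  simp [mu, mu1, mark_eq]

theorem Bs_eq (ξ : ℝ) (p j : ℕ) : Bs (aa ξ) p j
    = ∑ i ∈ (Finset.range j).filter (fun i => i % 2 = p % 2), mark ξ i * den ξ i := by
  rw [Bs, Finset.sum_filter]
  refine Finset.sum_congr rfl fun i _ => ?_
  rw [mu_eq, Qn_eq]
  split_ifs <;> simp [Q]

theorem Hs_eq (ξ : ℝ) (p j : ℕ) : Hs (aa ξ) p j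
    = ∑ i ∈ (Finset.range j).filter (fun i => i % 2 = p % 2), mark ξ i := by
  rw [Hs, Finset.sum_filter]
  exact Finset.sum_congr rfl fun i _ => mu_eq ξ p i

theorem Bs_congr (a : ℕ → ℕ) {p p' : ℕ} (hp : p % 2 = p' % 2) (j : ℕ) : Bs a p j = Bs a p' j := by
  simp only [Bs, mu, hp]

theorem record_iff (h : Irrational ξ) (N : ℕ) : IsRecord (2 * ξ) N ↔
    N = 0 ∨ ∃ j b, 1 ≤ b ∧ b ≤ mark ξ j ∧ N = b * Q ξ (j + 1) + Bs (aa ξ) j j := by
  have h0 := rec_iff h 0 N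
  have h1 := rec_iff h 1 N
  rw [pow_zero] at h0
  rw [pow_one] at h1
  rw [isRecord_iff, h0, h1]
  have key : ∀ p j b, 1 ≤ b → b ≤ mu (aa ξ) p j → N = b * Q ξ (j + 1) + Bs (aa ξ) p j →
      b ≤ mark ξ j ∧ N = b * Q ξ (j + 1) + Bs (aa ξ) j j := by
    intro p j b h2 h3 h4
    rw [mu_eq] at h3
    split_ifs at h3 with h5
    · exact ⟨h3, by rw [Bs_congr _ h5]; exact h4⟩
    · omega
  constructor
  · rintro ((h2 | ⟨j, b, h2, h3, h4⟩) | (h2 | ⟨j, b, h2, h3, h4⟩))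
    · exact Or.inl h2
    · exact Or.inr ⟨j, b, h2, key _ j b h2 h3 h4⟩
    · exact Or.inl h2
    · exact Or.inr ⟨j, b, h2, key _ j b h2 h3 h4⟩
  · rintro (h2 | ⟨j, b, h2, h3, h4⟩)
    · exact Or.inl (Or.inl h2)
    · rcases Nat.mod_two_eq_zero_or_one j with h5 | h5
      · exact Or.inl (Or.inr ⟨j, b, h2, by rw [mu_eq, if_pos (by omega)]; exact h3,
          by rw [← Bs_congr _ (show j % 2 = 0 % 2 by omega)]; exact h4⟩)
      · exact Or.inr (Or.inr ⟨j, b, h2, by rw [mu_eq, if_pos (by omega)]; exact h3,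
          by rw [← Bs_congr _ (show j % 2 = 1 % 2 by omega)]; exact h4⟩)

theorem walk_value (h : Irrational ξ) (j : ℕ) {b : ℕ} (hb : b ≤ mark ξ j) :
    walk (2 * ξ) (b * Q ξ (j + 1) + Bs (aa ξ) j j) = (-1) ^ j * ((Hs (aa ξ) j j : ℝ) + b) := by
  have h1 := value h j j (b := b) (by rw [mu_eq, if_pos rfl]; exact hb)
  have h2 : ((-1 : ℝ) ^ j) * (-1) ^ j = 1 := by rw [← pow_add, ← two_mul, pow_mul]; simp
  have h3 : ((-1 : ℝ) ^ j) * T ξ (b * Q ξ (j + 1) + Bs (aa ξ) j j) = Hs (aa ξ) j j + b := by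
    exact_mod_cast h1
  rw [walk_eq, ← h3, ← mul_assoc, h2, one_mul]

end Pool.Agent.Lib.MP_425be5_nt_X
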