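import Pool.Agent.Lib.MP_425be5_nt_X.Form

/-!
The records form an automatic set exactly when the partial quotients are bounded and the digits
`m_i` are eventually periodic.
-/

namespace Pool.Agent.Lib.MP_425be5_nt_X

open Pool.Agent.Lib.MP_425be5_nt

/-- The word of the last record of parity `p` below `q_k`. -/
def mw (a : ℕ → ℕ) (p : ℕ) : ℕ → List ℕ
  | 0 => []
  | k + 1 => mu a p k :: mw a p k

section words

variable {a : ℕ → ℕ}

theorem length_mw (p : ℕ) : ∀ k, (mw a p k).length = k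
  | 0 => rfl
  | k + 1 => by simp [mw, length_mw p k]

theorem val_mw (p : ℕ) : ∀ k, val a (mw a p k) = Bs a p k
  | 0 => rfl
  | k + 1 => by rw [mw, val, length_mw, val_mw p k, Bs, Bs, Finset.sum_range_succ, add_comm]

theorem mw_congr {p p' : ℕ} (hp : p % 2 = p' % 2) : ∀ k, mw a p k = mw a p' k
  | 0 => rfl
  | k + 1 => by rw [mw, mw, mw_congr hp k]; simp only [mu, hp]

theorem mu_par {p k : ℕ} (h : mu a p k ≠ 0) : k % 2 = p % 2 := by
  by_contra h1
  simp [mu, mu1, h1] at h

theorem mu_le (ha : ∀ k, 1 ≤ a k) (p k : ℕ) : mu a p k ≤ a k := by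
  have := ha k
  simp only [mu, mu1]
  split_ifs
  · cases ty a k <;> simp only [mk] <;> omega
  · omega

theorem valid_top (ha : ∀ k, 1 ≤ a k) (p : ℕ) : ∀ k b, b ≤ mu a p k → Valid a (b :: mw a p k)
  | 0, b, h => by
    have h1 := ha 0
    have h2 : mu a p 0 ≤ a 0 / 2 := by
      simp only [mu, mu1, ty, mk]
      split_ifs <;> omega
    exact ⟨trivial, by simp only [mw, List.length_nil]; omega,
      fun h3 => by simp only [mw, List.length_nil] at h3; omega⟩
  | k + 1, b, h => by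
    have h1 := ha (k + 1)
    have h2 := mu_le ha p (k + 1)
    refine ⟨valid_top ha p k _ le_rfl, by rw [length_mw]; omega, fun h3 => ?_⟩
    rw [length_mw] at h3
    have h4 := mu_par (show mu a p (k + 1) ≠ 0 by omega)
    have h5 : mu a p k = 0 := by
      by_contra h5
      have := mu_par h5
      omega
    simp [mw, h5]

theorem valid_zeros (ha : ∀ k, 1 ≤ a k) {u : List ℕ} (hu : Valid a u) :
    ∀ d, Valid a (List.replicate d 0 ++ u)
  | 0 => hu
  | d + 1 => ⟨valid_zeros ha hu d, Nat.zero_le _, fun h => absurd h (Nat.ne_of_lt (ha _))⟩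

theorem val_inj_len (ha : ∀ k, 1 ≤ a k) : ∀ w w' : List ℕ, w.length = w'.length → Valid a w →
    Valid a w' → val a w = val a w' → w = w'
  | [], [], _, _, _, _ => rfl
  | [], _ :: _, h, _, _, _ => by simp at h
  | _ :: _, [], h, _, _, _ => by simp at h
  | b :: w, c :: w', h, h1, h2, h3 => by
    have hl : w.length = w'.length := by simpa using h
    have h4 := (val_lt ha w h1.1).1
    have h5 := (val_lt ha w' h2.1).1
    simp only [val] at h3
    rw [← hl] at h3 h5
    have hb : b = c := by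
      rcases lt_trichotomy b c with h6 | h6 | h6
      · have := Nat.mul_le_mul_right (Qn a (w.length + 1)) (Nat.succ_le_of_lt h6)
        rw [Nat.succ_mul] at this
        omega
      · exact h6
      · have := Nat.mul_le_mul_right (Qn a (w.length + 1)) (Nat.succ_le_of_lt h6)
        rw [Nat.succ_mul] at this
        omega
    subst hb
    rw [val_inj_len ha w w' hl h1.1 h2.1 (by omega)]

theorem drop_mw (p k : ℕ) : ∀ n, (mw a p (k + n)).drop n = mw a p k
  | 0 => rfl
  | n + 1 => drop_mw p k n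

theorem mw_zeros (p k : ℕ) : ∀ d, (∀ i < d, mu a p (k + i) = 0) →
    mw a p (k + d) = List.replicate d 0 ++ mw a p k
  | 0, _ => rfl
  | d + 1, h => by
    rw [← add_assoc, mw, h d (by omega), mw_zeros p k d (fun i hi => h i (by omega))]
    rfl

end words

variable {ξ : ℝ}

theorem val_inj (h : Irrational ξ) {w w' : List ℕ} (h1 : Valid (aa ξ) w) (h2 : Valid (aa ξ) w')
    (h3 : w.head? ≠ some 0) (h4 : w'.head? ≠ some 0) (h5 : val (aa ξ) w = val (aa ξ) w') :
    w = w' := by
  have key : ∀ u u' : List ℕ, Valid (aa ξ) u → u'.head? ≠ some 0 → u.length < u'.length →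
      val (aa ξ) u < val (aa ξ) u' := by
    intro u u' k1 k2 k3
    have k4 := (val_lt (a := aa ξ) (one_le_pq h) u k1).1
    cases u' with
    | nil => simp at k3
    | cons b u' =>
      have k5 : 1 ≤ b := Nat.one_le_iff_ne_zero.mpr (by simpa using k2)
      have k6 : Q ξ (u.length + 1) ≤ Q ξ (u'.length + 1) :=
        monotone_nat_of_le_succ (Q_le_succ h) k3
      have := Nat.mul_le_mul_right (Q ξ (u'.length + 1)) k5
      rw [Qn_eq] at k4
      rw [val, Qn_eq]
      omega
  refine val_inj_len (one_le_pq h) w w' ?_ h1 h2 h5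
  rcases lt_trichotomy w.length w'.length with h6 | h6 | h6
  · have := key w w' h1 h4 h6; omega
  · exact h6
  · have := key w' w h2 h3 h6; omega

theorem mu_self (ξ : ℝ) (j : ℕ) : mu (aa ξ) j j = mark ξ j := by rw [mu_eq, if_pos rfl]

theorem record_word (h : Irrational ξ) {w : List ℕ} (h1 : Valid (aa ξ) w) (h2 : w.head? ≠ some 0) :
    IsRecord (2 * ξ) (val (aa ξ) w) ↔
      w = [] ∨ ∃ j b, 1 ≤ b ∧ b ≤ mark ξ j ∧ w = b :: mw (aa ξ) j j := by
  rw [record_iff h]
  refine or_congr ⟨fun h3 => val_inj h h1 trivial h2 (by simp) h3, fun h3 => by rw [h3]; rfl⟩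
    (exists_congr fun j => exists_congr fun b => and_congr_right fun h3 =>
      and_congr_right fun h4 => ?_)
  have h5 : val (aa ξ) (b :: mw (aa ξ) j j) = b * Q ξ (j + 1) + Bs (aa ξ) j j := by
    rw [val, length_mw, val_mw, Qn_eq]
  rw [← h5]
  exact ⟨fun h6 => val_inj h h1 (valid_top (a := aa ξ) (one_le_pq h) j j b (by rwa [mu_self])) h2
    (by simp; omega) h6, fun h6 => by rw [h6]⟩

theorem auto_iff (h : Irrational ξ) (S : Set ℕ) : OstrowskiAutomatic ξ S ↔
    (∃ A, ∀ k, aa ξ k ≤ A) ∧ ∃ L : Language ℕ, L.IsRegular ∧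
      ∀ w, Valid (aa ξ) w → w.head? ≠ some 0 → (w ∈ L ↔ val (aa ξ) w ∈ S) := by
  constructor
  · rintro ⟨B, σ, hσ, M, hM⟩
    have key : ∀ w, Valid (aa ξ) w → w.head? ≠ some 0 → ∃ w' : List (Fin B),
        w'.map Fin.val = w ∧ (w' ∈ M.accepts ↔ val (aa ξ) w ∈ S) := by
      intro w h1 h2
      obtain ⟨⟨w', h3⟩, h4⟩ := hM (val (aa ξ) w)
      obtain ⟨h5, h6, h7⟩ := (rep_iff h _ _).mp h3
      exact ⟨w', val_inj h h6 h1 h7 h2 h5.symm, h4 w' h3⟩
    have hB : ∀ k, aa ξ (k + 1) < B := by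
      intro k
      have h0 : 1 ≤ aa ξ (k + 1) := one_le_pq h (k + 1)
      obtain ⟨w', h1, _⟩ := key (aa ξ (k + 1) :: (List.replicate (k + 1) 0 ++ []))
        ⟨valid_zeros (a := aa ξ) (u := []) (one_le_pq h) trivial _, by simp, fun _ => by simp [List.replicate_succ]⟩
        (by simp; omega)
      cases w' with
      | nil => simp at h1
      | cons c w' =>
        simp only [List.map_cons, List.cons.injEq] at h1
        rw [← h1.1]
        exact c.2
    have hB0 : 0 < B := by have := hB 0; omega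
    refine ⟨⟨max B (aa ξ 0), fun k => ?_⟩, (M.comap fun n : ℕ => (⟨n % B, Nat.mod_lt _ hB0⟩ :
      Fin B)).accepts, ⟨σ, hσ, _, rfl⟩, fun w h1 h2 => ?_⟩
    · cases k with
      | zero => exact le_max_right _ _
      | succ k => exact (hB k).le.trans (le_max_left _ _)
    · obtain ⟨w', h3, h4⟩ := key w h1 h2
      rw [← h4, DFA.accepts_comap, ← h3]
      show List.map _ (List.map _ w') ∈ M.accepts ↔ _
      rw [List.map_map, List.map_congr_left (g := id)
        (fun c _ => Fin.ext (Nat.mod_eq_of_lt c.2)), List.map_id]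
  · rintro ⟨⟨A, hA⟩, L, ⟨σ, hσ, M, hM⟩, hL⟩
    refine ⟨A + 1, σ, hσ, M.comap Fin.val, fun N => ⟨?_, fun w hw => ?_⟩⟩
    · have hQ : ∀ k, Qn (aa ξ) k ≤ Qn (aa ξ) (k + 1) := by
        intro k; rw [Qn_eq, Qn_eq]; exact Q_le_succ h k
      obtain ⟨w, _, h3, h4, _⟩ := exists_valid hQ (N + 1) N (by
        rw [Qn_eq]; exact le_Q h (N + 1))
      obtain ⟨w', h5, h6, h7⟩ := exists_strip w h3
      obtain ⟨w'', h8⟩ := exists_fin w' (valid_bound hA w' h5)
      exact ⟨w'', by rw [h8, rep_iff h]; exact ⟨by rw [h6, h4], h5, h7⟩⟩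
    · obtain ⟨h3, h4, h5⟩ := (rep_iff h _ _).mp hw
      rw [DFA.accepts_comap, hM, h3, ← hL _ h4 h5]
      rfl

/-- An automaton with a clock, reading from the least significant digit. -/
def clk (m : ℕ → ℕ) : DFA ℕ ((ℕ → ℕ) × Prop × Prop × Prop) where
  step st b := (fun i => st.1 (i + 1), st.2.2.1 ∧ b = 0, st.2.1 ∧ b = st.1 0,
    st.2.1 ∧ 1 ≤ b ∧ b ≤ st.1 0)
  start := (m, True, True, True)
  accept := {st | st.2.2.2}

theorem clk_cons (m : ℕ → ℕ) (b : ℕ) (w : List ℕ) :
    (clk m).eval (b :: w).reverse = (clk m).step ((clk m).eval w.reverse) b := by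
  rw [List.reverse_cons, DFA.eval_append_singleton]

theorem clk_eval (ξ : ℝ) : ∀ w : List ℕ,
    ((clk (mark ξ)).eval w.reverse).1 = (fun i => mark ξ (i + w.length)) ∧
    (((clk (mark ξ)).eval w.reverse).2.1 ↔ w = mw (aa ξ) w.length w.length) ∧
    (((clk (mark ξ)).eval w.reverse).2.2.1 ↔ w = mw (aa ξ) (w.length + 1) w.length)
  | [] => by simp [clk, mw]
  | b :: w => by
    obtain ⟨h1, h2, h3⟩ := clk_eval ξ w
    rw [clk_cons]
    refine ⟨?_, ?_, ?_⟩
    · funext i
      show ((clk (mark ξ)).eval w.reverse).1 (i + 1) = _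
      rw [h1, List.length_cons]
      show mark ξ (i + 1 + w.length) = _
      congr 1
      omega
    · show _ ∧ b = 0 ↔ _
      rw [h3, List.length_cons, mw, mu_eq, if_neg (by omega), List.cons.injEq, and_comm]
    · show _ ∧ b = _ ↔ _
      rw [h1, h2, List.length_cons, mw, mu_eq, if_pos (by omega), List.cons.injEq, and_comm,
        mw_congr (show (w.length + 1 + 1) % 2 = w.length % 2 by omega)]
      simp

theorem regular_of_periodic (h : Irrational ξ) {P n0 : ℕ} (hP : 0 < P)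
    (hper : ∀ i, n0 ≤ i → mark ξ (i + P) = mark ξ i) : ∃ L : Language ℕ, L.IsRegular ∧
      ∀ w, Valid (aa ξ) w → w.head? ≠ some 0 → (w ∈ L ↔ IsRecord (2 * ξ) (val (aa ξ) w)) := by
  have hsh : ∀ k, ∃ k' < n0 + P, (fun i => mark ξ (i + k)) = fun i => mark ξ (i + k') := by
    intro k
    induction k using Nat.strong_induction_on with
    | _ k ih =>
      rcases lt_or_ge k (n0 + P) with h1 | h1
      · exact ⟨k, h1, rfl⟩
      · obtain ⟨k', h2, h3⟩ := ih (k - P) (by omega)
        refine ⟨k', h2, ?_⟩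
        rw [← h3]
        funext i
        rw [← hper (i + (k - P)) (by omega)]
        congr 1
        omega
  have hreg : (clk (mark ξ)).accepts.IsRegular := by
    apply Language.IsRegular.of_finite_range_leftQuotient
    rw [Language.leftQuotient_accepts, Set.range_comp]
    refine Set.Finite.image _ ((((Set.finite_lt_nat (n0 + P)).image
      (fun k i => mark ξ (i + k))).prod (Set.toFinite Set.univ)).subset ?_)
    rintro _ ⟨u, rfl⟩
    obtain ⟨k', h1, h2⟩ := hsh u.reverse.length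
    have h3 := (clk_eval ξ u.reverse).1
    rw [List.reverse_reverse] at h3
    exact ⟨⟨k', h1, by rw [h3, h2]⟩, trivial⟩
  refine ⟨_, hreg.reverse, fun w h1 h2 => ?_⟩
  rw [record_word h h1 h2, Language.mem_reverse, DFA.mem_accepts]
  cases w with
  | nil => simp [clk]
  | cons b w =>
    obtain ⟨h3, h4, _⟩ := clk_eval ξ w
    rw [clk_cons]
    show _ ∧ 1 ≤ b ∧ b ≤ _ ↔ _
    rw [h3, h4]
    simp only [zero_add, reduceCtorEq, false_or, List.cons.injEq]
    constructor
    · rintro ⟨h5, h6, h7⟩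
      exact ⟨_, b, h6, h7, rfl, h5⟩
    · rintro ⟨j, b', h5, h6, rfl, h7⟩
      have : w.length = j := by rw [h7, length_mw]
      rw [this]
      exact ⟨h7, h5, h6⟩

theorem digit_le (h : Irrational ξ) {L : Language ℕ}
    (hL : ∀ w, Valid (aa ξ) w → w.head? ≠ some 0 → (w ∈ L ↔ IsRecord (2 * ξ) (val (aa ξ) w)))
    {p c c' : ℕ} (hinf : ∀ n, ∃ j, n ≤ j ∧ mu (aa ξ) p j ≠ 0) (hc : c % 2 = c' % 2)
    (H : ∀ z, z ++ mw (aa ξ) p c' ∈ L → z ++ mw (aa ξ) p c ∈ L) :
    mu (aa ξ) p c ≤ mu (aa ξ) p c' := by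
  classical
  by_contra hlt
  have ha : ∀ k, 1 ≤ aa ξ k := one_le_pq h
  have hex : ∃ d, mu (aa ξ) p (c' + 1 + d) ≠ 0 := by
    obtain ⟨j, h1, h2⟩ := hinf (c' + 1)
    exact ⟨j - (c' + 1), by rwa [show c' + 1 + (j - (c' + 1)) = j by omega]⟩
  have h1 := Nat.find_spec hex
  have h2 := mw_zeros p (c' + 1) (Nat.find hex) (fun i hi => by simpa using Nat.find_min hex hi)
  generalize Nat.find hex = d at h1 h2
  have h3 := mu_par h1
  have h4 := mu_par (show mu (aa ξ) p c ≠ 0 by omega)
  obtain ⟨d, rfl⟩ : ∃ d', d = d' + 1 := ⟨d - 1, by omega⟩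
  have h5 : (1 :: List.replicate (d + 1) 0 ++ [mu (aa ξ) p c']) ++ mw (aa ξ) p c' ∈ L := by
    have h6 : (1 :: List.replicate (d + 1) 0 ++ [mu (aa ξ) p c']) ++ mw (aa ξ) p c'
        = 1 :: mw (aa ξ) p (c' + 1 + (d + 1)) := by
      rw [h2, mw]; simp
    have h7 := valid_top ha p (c' + 1 + (d + 1)) 1 (by omega)
    rw [h6, hL _ h7 (by simp), record_word h h7 (by simp)]
    refine Or.inr ⟨c' + 1 + (d + 1), 1, le_rfl, ?_, by rw [mw_congr h3]⟩
    rw [mu_eq, if_pos h3] at h1
    omega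
  have h6 : (1 :: List.replicate (d + 1) 0 ++ [mu (aa ξ) p c']) ++ mw (aa ξ) p c
      = 1 :: (List.replicate (d + 1) 0 ++ mu (aa ξ) p c' :: mw (aa ξ) p c) := by simp
  have h7 : Valid (aa ξ) (1 :: (List.replicate (d + 1) 0 ++ mu (aa ξ) p c' :: mw (aa ξ) p c)) :=
    ⟨valid_zeros ha (valid_top ha p c _ (by omega)) _, ha _,
      fun _ => by simp [List.replicate_succ]⟩
  have h8 := H _ h5
  rw [h6, hL _ h7 (by simp), record_word h h7 (by simp)] at h8
  rcases h8 with h8 | ⟨j, b, _, _, h8⟩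
  · simp at h8
  · have h9 := (List.cons.inj h8).2
    have h10 : j = c + 1 + (d + 1) := by
      have := congrArg List.length h9
      simp only [List.length_append, List.length_replicate, List.length_cons, length_mw] at this
      omega
    have h11 := congrArg (List.drop (d + 1)) h9
    rw [mw_congr (show j % 2 = p % 2 by omega), h10, drop_mw, List.drop_left' (by simp), mw] at h11
    have := (List.cons.inj h11).1
    omega

theorem periodic_of_regular (h : Irrational ξ) {L : Language ℕ} (hreg : L.IsRegular)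
    (hL : ∀ w, Valid (aa ξ) w → w.head? ≠ some 0 → (w ∈ L ↔ IsRecord (2 * ξ) (val (aa ξ) w))) :
    ∃ P, 0 < P ∧ ∃ n0, ∀ i, n0 ≤ i → mark ξ (i + P) = mark ξ i := by
  have hfin := hreg.reverse.finite_range_leftQuotient
  obtain ⟨k, k', hk, he⟩ := (hfin.prod hfin).exists_lt_map_eq_of_forall_mem
    (f := fun k : ℕ => (L.reverse.leftQuotient (mw (aa ξ) 0 (2 * k)).reverse,
      L.reverse.leftQuotient (mw (aa ξ) 1 (2 * k)).reverse)) 
      (fun k => Set.mk_mem_prod (Set.mem_range_self _) (Set.mem_range_self _))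
  have key : ∀ p, L.reverse.leftQuotient (mw (aa ξ) p (2 * k)).reverse
      = L.reverse.leftQuotient (mw (aa ξ) p (2 * k')).reverse →
      ∃ n0, ∀ i, n0 ≤ i → mu (aa ξ) p (i + (2 * k' - 2 * k)) = mu (aa ξ) p i := by
    intro p hp
    by_cases hinf : ∀ n, ∃ j, n ≤ j ∧ mu (aa ξ) p j ≠ 0
    · have h1 : ∀ r, (∀ z, z ++ mw (aa ξ) p (2 * k + r) ∈ L ↔ z ++ mw (aa ξ) p (2 * k' + r) ∈ L) →
          mu (aa ξ) p (2 * k + r) = mu (aa ξ) p (2 * k' + r) := fun r H =>
        le_antisymm (digit_le h hL hinf (by omega) (fun z => (H z).mpr))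
          (digit_le h hL hinf (by omega) (fun z => (H z).mp))
      have h2 : ∀ r z, z ++ mw (aa ξ) p (2 * k + r) ∈ L ↔ z ++ mw (aa ξ) p (2 * k' + r) ∈ L := by
        intro r
        induction r with
        | zero =>
          intro z
          have : z.reverse ∈ L.reverse.leftQuotient (mw (aa ξ) p (2 * k)).reverse ↔
              z.reverse ∈ L.reverse.leftQuotient (mw (aa ξ) p (2 * k')).reverse := by rw [hp]
          rwa [Language.mem_leftQuotient, Language.mem_leftQuotient, ← List.reverse_append,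
            ← List.reverse_append, Language.mem_reverse, Language.mem_reverse,
            List.reverse_reverse, List.reverse_reverse] at this
        | succ r ih =>
          intro z
          rw [← add_assoc, ← add_assoc, mw, mw, h1 r ih, List.append_cons, ih, ← List.append_cons]
      refine ⟨2 * k, fun i hi => ?_⟩
      obtain ⟨r, rfl⟩ := Nat.exists_eq_add_of_le hi
      rw [h1 r (h2 r)]
      congr 1
      omega
    · push Not at hinf
      obtain ⟨n, hn⟩ := hinf
      exact ⟨n, fun i hi => by rw [hn i hi, hn _ (by omega)]⟩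
  obtain ⟨n0, h0⟩ := key 0 (congrArg Prod.fst he)
  obtain ⟨n1, h1⟩ := key 1 (congrArg Prod.snd he)
  refine ⟨2 * k' - 2 * k, by omega, max n0 n1, fun i hi => ?_⟩
  have h2 := h0 i (by omega)
  have h3 := h1 i (by omega)
  rw [mu_eq, mu_eq] at h2 h3
  rcases Nat.mod_two_eq_zero_or_one i with h4 | h4
  · rwa [if_pos (by omega), if_pos (by omega)] at h2
  · rwa [if_pos (by omega), if_pos (by omega)] at h3

theorem automatic_iff (h : Irrational ξ) : OstrowskiAutomatic ξ {r | IsRecord (2 * ξ) r} ↔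
    (∃ A, ∀ i, pq ξ (i + 1) ≤ A) ∧ ∃ P, 0 < P ∧ ∃ n0, ∀ i, n0 ≤ i → mark ξ (i + P) = mark ξ i := by
  rw [auto_iff h]
  refine and_congr Iff.rfl ⟨?_, ?_⟩
  · rintro ⟨L, h1, h2⟩
    exact periodic_of_regular h h1 h2
  · rintro ⟨P, h1, n0, h2⟩
    exact regular_of_periodic h h1 h2

end Pool.Agent.Lib.MP_425be5_nt_X
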