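import Pool.Agent.Lib.MP_425be5_nt_X.Iff

/-!
The increasing enumeration of the records, and its linear recurrence for quadratic irrationals.
-/

namespace Pool.Agent.Lib.MP_425be5_nt_X

open Pool.Agent.Lib.MP_425be5_nt

variable {ξ : ℝ}

/-- The record number `b` of level `j`. -/
noncomputable def rr (ξ : ℝ) (j b : ℕ) : ℕ := b * Q ξ (j + 1) + Bs (aa ξ) j j

/-- The number of positive records below `q_j`. -/
noncomputable def SS (ξ : ℝ) (j : ℕ) : ℕ := ∑ i ∈ Finset.range j, mark ξ i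

theorem SS_succ (j : ℕ) : SS ξ (j + 1) = SS ξ j + mark ξ j := Finset.sum_range_succ _ _

theorem rr_lt (h : Irrational ξ) (j : ℕ) {b : ℕ} (hb : b ≤ mark ξ j) : rr ξ j b < Q ξ (j + 2) :=
  lt_Q h j j (by rwa [mu_self])

theorem le_rr (j : ℕ) {b : ℕ} (hb : 1 ≤ b) : Q ξ (j + 1) ≤ rr ξ j b := by
  have := Nat.mul_le_mul_right (Q ξ (j + 1)) hb
  simp only [rr]
  omega

theorem rr_mono (h : Irrational ξ) (j : ℕ) : StrictMono (rr ξ j) := fun b c hbc => by
  have := Nat.mul_lt_mul_of_lt_of_le hbc (le_refl (Q ξ (j + 1))) (Q_pos h j)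
  simp only [rr]
  omega

open Classical in
theorem count_step (h : Irrational ξ) (j c N : ℕ) (hc : c ≤ mark ξ j) (h1 : Q ξ (j + 1) ≤ N)
    (h2 : N ≤ Q ξ (j + 2)) (h3 : ∀ b, b ≤ mark ξ j → (rr ξ j b < N ↔ b ≤ c)) :
    Nat.count (IsRecord (2 * ξ)) N = Nat.count (IsRecord (2 * ξ)) (Q ξ (j + 1)) + c := by
  have hm : Monotone (Q ξ) := monotone_nat_of_le_succ (Q_le_succ h)
  rw [Nat.count_eq_card_filter_range, Nat.count_eq_card_filter_range]
  have : (Finset.range N).filter (IsRecord (2 * ξ)) =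
      (Finset.range (Q ξ (j + 1))).filter (IsRecord (2 * ξ)) ∪
        (Finset.Icc 1 c).image (rr ξ j) := by
    ext x
    simp only [Finset.mem_filter, Finset.mem_range, Finset.mem_union, Finset.mem_image,
      Finset.mem_Icc]
    constructor
    · rintro ⟨k1, k2⟩
      rcases lt_or_ge x (Q ξ (j + 1)) with k3 | k3
      · exact Or.inl ⟨k3, k2⟩
      · rcases (record_iff h x).mp k2 with k4 | ⟨j', b, k4, k5, k6⟩
        · have := Q_pos h j; omega
        · have k7 : x = rr ξ j' b := k6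
          have k8 := rr_lt h j' k5
          have k9 := le_rr (ξ := ξ) j' k4
          have : j' = j := by
            rcases lt_trichotomy j' j with k | k | k
            · have : Q ξ (j' + 2) ≤ Q ξ (j + 1) := hm (by omega)
              omega
            · exact k
            · have : Q ξ (j + 2) ≤ Q ξ (j' + 1) := hm (by omega)
              omega
          subst this
          exact Or.inr ⟨b, ⟨k4, (h3 b k5).mp (k7 ▸ k1)⟩, k7.symm⟩
    · rintro (⟨k1, k2⟩ | ⟨b, ⟨k1, k2⟩, rfl⟩)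
      · exact ⟨by omega, k2⟩
      · exact ⟨(h3 b (by omega)).mpr k2,
          (record_iff h _).mpr (Or.inr ⟨j, b, k1, by omega, rfl⟩)⟩
  rw [this, Finset.card_union_of_disjoint, Finset.card_image_of_injective _ (rr_mono h j).injective]
  · simp
  · rw [Finset.disjoint_left]
    intro x k1 k2
    simp only [Finset.mem_filter, Finset.mem_range, Finset.mem_image, Finset.mem_Icc] at k1 k2
    obtain ⟨b, ⟨k3, _⟩, rfl⟩ := k2
    have := le_rr (ξ := ξ) j k3
    omega

open Classical in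
theorem count_Q (h : Irrational ξ) : ∀ j, Nat.count (IsRecord (2 * ξ)) (Q ξ (j + 1)) = SS ξ j + 1
  | 0 => by
    have : IsRecord (2 * ξ) 0 := (record_iff h 0).mpr (Or.inl rfl)
    simp [Q_one, SS, Nat.count_one, this]
  | j + 1 => by
    rw [count_step h j (mark ξ j) _ le_rfl (Q_le_succ h _) le_rfl
      (fun b hb => ⟨fun _ => hb, fun _ => rr_lt h j hb⟩), count_Q h j, SS_succ]
    ring

theorem nth_rr (h : Irrational ξ) (j : ℕ) {b : ℕ} (h1 : 1 ≤ b) (h2 : b ≤ mark ξ j) :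
    Nat.nth (IsRecord (2 * ξ)) (SS ξ j + b) = rr ξ j b := by
  classical
  have h3 := count_step h j (b - 1) (rr ξ j b) (by omega) (le_rr j h1) (rr_lt h j h2).le
    (fun b' _ => by rw [(rr_mono h j).lt_iff_lt]; omega)
  rw [count_Q h j, show SS ξ j + 1 + (b - 1) = SS ξ j + b by omega] at h3
  rw [← h3]
  exact Nat.nth_count ((record_iff h (rr ξ j b)).mpr (Or.inr ⟨j, b, h1, h2, rfl⟩))

theorem mark_pos (h : Irrational ξ) (k : ℕ) : 1 ≤ mark ξ k + mark ξ (k + 1) + mark ξ (k + 2) := by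
  have h0 : 1 ≤ aa ξ k := one_le_pq h k
  have h1 : 1 ≤ aa ξ (k + 1) := one_le_pq h (k + 1)
  have h2 : 1 ≤ aa ξ (k + 2) := one_le_pq h (k + 2)
  simp only [mark_eq, ty]
  by_cases h3 : aa ξ k % 2 = 0 <;> by_cases h4 : aa ξ (k + 1) % 2 = 0 <;> cases ty (aa ξ) k <;>
    simp only [nxt, mk, h3, h4, if_true, if_false] <;> omega

theorem le_SS (h : Irrational ξ) : ∀ k, k ≤ SS ξ (3 * k)
  | 0 => Nat.zero_le _
  | k + 1 => by
    have h1 := le_SS h k
    have h2 := mark_pos h (3 * k)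
    rw [show 3 * (k + 1) = 3 * k + 2 + 1 by ring, SS_succ, SS_succ, SS_succ]
    omega

theorem infinite_records (h : Irrational ξ) : {r | IsRecord (2 * ξ) r}.Infinite := by
  refine Set.infinite_of_forall_exists_gt fun n => ?_
  have h1 := mark_pos h (n + 1)
  have key : ∀ j, n + 1 ≤ j → 1 ≤ mark ξ j → ∃ b ∈ {r | IsRecord (2 * ξ) r}, n < b := by
    intro j h2 h3
    have h4 := le_rr (ξ := ξ) j (le_refl 1)
    have h5 := le_Q h j
    exact ⟨rr ξ j 1, (record_iff h _).mpr (Or.inr ⟨j, 1, le_rfl, h3, rfl⟩), by omega⟩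
  rcases Nat.eq_zero_or_pos (mark ξ (n + 1)) with h2 | h2
  · rcases Nat.eq_zero_or_pos (mark ξ (n + 1 + 1)) with h3 | h3
    · exact key (n + 1 + 2) (by omega) (by omega)
    · exact key _ (by omega) h3
  · exact key _ le_rfl h2

theorem transfer (c : ℕ → ℤ) : ∀ n : ℕ, ∃ α β γ δ : ℤ, α * δ - β * γ = (-1) ^ n ∧
    ∀ x : ℕ → ℤ, (∀ i, x (i + 2) = c i * x (i + 1) + x i) →
      x n = α * x 0 + β * x 1 ∧ x (n + 1) = γ * x 0 + δ * x 1
  | 0 => ⟨1, 0, 0, 1, by simp, fun x _ => by simp⟩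
  | n + 1 => by
    obtain ⟨α, β, γ, δ, h1, h2⟩ := transfer c n
    refine ⟨γ, δ, c n * γ + α, c n * δ + β, by rw [pow_succ, ← h1]; ring, fun x hx => ?_⟩
    obtain ⟨h3, h4⟩ := h2 x hx
    exact ⟨h4, by rw [hx, h3, h4]; ring⟩

theorem Q_three (n0 P : ℕ) (hP : P % 2 = 0) (hper : ∀ i, n0 ≤ i → aa ξ (i + P) = aa ξ i) :
    ∃ t : ℤ, ∀ j, n0 ≤ j → (Q ξ (j + P + P) : ℤ) - t * Q ξ (j + P) + Q ξ j = 0 := by
  obtain ⟨α, β, γ, δ, h1, h2⟩ := transfer (fun i => aa ξ (n0 + i)) P
  rw [Even.neg_one_pow (Nat.even_iff.mpr hP)] at h1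
  have hr : ∀ k, (Q ξ (k + 2) : ℤ) = aa ξ k * Q ξ (k + 1) + Q ξ k := fun k => by
    rw [Q_rec]; push_cast; rfl
  obtain ⟨u0, u1⟩ := h2 (fun i => Q ξ (n0 + i)) (fun i => hr (n0 + i))
  obtain ⟨v0, v1⟩ := h2 (fun i => Q ξ (n0 + i + P)) (fun i => by
    have := hr (n0 + i + P)
    rw [hper _ (by omega)] at this
    show (Q ξ (n0 + (i + 2) + P) : ℤ) = _ * (Q ξ (n0 + (i + 1) + P) : ℤ) + _
    rw [show n0 + (i + 2) + P = n0 + i + P + 2 by ring,
      show n0 + (i + 1) + P = n0 + i + P + 1 by ring]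
    exact this)
  simp only [add_zero] at u0 u1 v0 v1
  have key : ∀ i, ((Q ξ (n0 + i + P + P) : ℤ) - (α + δ) * Q ξ (n0 + i + P) + Q ξ (n0 + i) = 0) ∧
      ((Q ξ (n0 + i + 1 + P + P) : ℤ) - (α + δ) * Q ξ (n0 + i + 1 + P) + Q ξ (n0 + i + 1) = 0) := by
    intro i
    induction i with
    | zero =>
      rw [show n0 + (P + 1) = n0 + 1 + P by ring] at u1
      rw [show n0 + (P + 1) + P = n0 + 1 + P + P by ring] at v1
      simp only [add_zero]
      rw [v0, v1, u0, u1]
      exact ⟨by linear_combination (-(Q ξ n0 : ℤ)) * h1,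
        by linear_combination (-(Q ξ (n0 + 1) : ℤ)) * h1⟩
    | succ i ih =>
      refine ⟨ih.2, ?_⟩
      have a1 := hr (n0 + i)
      have a2 := hr (n0 + i + P)
      have a3 := hr (n0 + i + P + P)
      rw [hper _ (by omega)] at a2 a3
      rw [hper _ (by omega)] at a3
      rw [show n0 + (i + 1) + 1 + P + P = n0 + i + P + P + 2 by ring,
        show n0 + (i + 1) + 1 + P = n0 + i + P + 2 by ring,
        show n0 + (i + 1) + 1 = n0 + i + 2 by ring, a1, a2, a3]
      obtain ⟨b1, b2⟩ := ih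
      rw [show n0 + i + 1 + P + P = n0 + i + P + P + 1 by ring,
        show n0 + i + 1 + P = n0 + i + P + 1 by ring] at b2
      linear_combination b1 + (aa ξ (n0 + i) : ℤ) * b2
  refine ⟨α + δ, fun j hj => ?_⟩
  obtain ⟨i, rfl⟩ := Nat.exists_eq_add_of_le hj
  exact (key i).1

theorem periodic_data (hfin : (Set.range fun k => cq ξ (k + 1)).Finite) :
    ∃ n0 P, 0 < P ∧ P % 2 = 0 ∧ (∀ i, n0 ≤ i → aa ξ (i + P) = aa ξ i) ∧
      ∀ i, n0 ≤ i → mark ξ (i + P) = mark ξ i := by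
  have hfin' := hfin.prod (Set.toFinite (Set.univ : Set Ty))
  obtain ⟨k, k', hk, he⟩ := hfin'.exists_lt_map_eq_of_forall_mem
    (f := fun k : ℕ => (cq ξ (2 * k + 1), ty (aa ξ) (2 * k)))
    (fun k => Set.mk_mem_prod (Set.mem_range_self (f := fun k => cq ξ (k + 1)) (2 * k))
      (Set.mem_univ _))
  have key : ∀ r, cq ξ (2 * k + r + 1) = cq ξ (2 * k' + r + 1) ∧
      ty (aa ξ) (2 * k + r) = ty (aa ξ) (2 * k' + r) := by
    intro r
    induction r with
    | zero => exact ⟨congrArg Prod.fst he, congrArg Prod.snd he⟩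
    | succ r ih =>
      refine ⟨?_, ?_⟩
      · show (Int.fract (cq ξ (2 * k + r + 1)))⁻¹ = (Int.fract (cq ξ (2 * k' + r + 1)))⁻¹
        rw [ih.1]
      · show nxt (ty (aa ξ) (2 * k + r)) (aa ξ (2 * k + r))
          = nxt (ty (aa ξ) (2 * k' + r)) (aa ξ (2 * k' + r))
        rw [ih.2, aa, aa, pq, pq, ih.1]
  have ha : ∀ r, aa ξ (2 * k + r) = aa ξ (2 * k' + r) := fun r => by
    rw [aa, aa, pq, pq, (key r).1]
  refine ⟨2 * k, 2 * k' - 2 * k, by omega, by omega, fun i hi => ?_, fun i hi => ?_⟩ <;>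
    obtain ⟨r, rfl⟩ := Nat.exists_eq_add_of_le hi <;>
    rw [show 2 * k + r + (2 * k' - 2 * k) = 2 * k' + r by omega]
  · exact (ha r).symm
  · rw [mark_eq, mark_eq, ha r, (key r).2]

theorem Bs_two (j : ℕ) :
    Bs (aa ξ) (j + 2) (j + 2) = Bs (aa ξ) j j + mark ξ j * Q ξ (j + 1) := by
  rw [Bs_congr _ (show (j + 2) % 2 = j % 2 by omega), Bs, Finset.sum_range_succ,
    Finset.sum_range_succ, mu_self, mu_eq, if_neg (by omega), Qn_eq, zero_mul, add_zero]
  rfl

theorem recurrence (h : Irrational ξ) (hfin : (Set.range fun k => cq ξ (k + 1)).Finite) :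
    ∃ L, 0 < L ∧ ∃ (c : ℤ) (n0 : ℕ), ∀ n, n0 ≤ n →
      (Nat.nth (IsRecord (2 * ξ)) (n + 3 * L) : ℤ) - c * Nat.nth (IsRecord (2 * ξ)) (n + 2 * L)
        + c * Nat.nth (IsRecord (2 * ξ)) (n + L) - Nat.nth (IsRecord (2 * ξ)) n = 0 := by
  classical
  obtain ⟨n0, P, hP, hP2, ha, hm⟩ := periodic_data hfin
  obtain ⟨t, ht⟩ := Q_three n0 P hP2 ha
  have hmono : Monotone (SS ξ) := monotone_nat_of_le_succ fun j => by rw [SS_succ]; omega
  obtain ⟨L, hL⟩ := Nat.exists_eq_add_of_le (hmono (show n0 ≤ n0 + P by omega))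
  have hS : ∀ j, n0 ≤ j → SS ξ (j + P) = SS ξ j + L := by
    intro j hj
    induction j, hj using Nat.le_induction with
    | base => exact hL
    | succ j hj ih => rw [show j + 1 + P = j + P + 1 by ring, SS_succ, SS_succ, ih, hm j hj]; ring
  have hL0 : 0 < L := by
    by_contra h0
    have h1 : ∀ s, SS ξ (n0 + s * P) = SS ξ n0 := by
      intro s
      induction s with
      | zero => simp
      | succ s ih => rw [show n0 + (s + 1) * P = n0 + s * P + P by ring, hS _ (by omega), ih]; omega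
    have h2 := le_SS h (SS ξ n0 + 1)
    have h3 := hmono (show 3 * (SS ξ n0 + 1) ≤ n0 + 3 * (SS ξ n0 + 1) * P by nlinarith)
    rw [h1] at h3
    omega
  have hD : ∀ j, n0 ≤ j → ∀ s, (Bs (aa ξ) (j + 2 * s + P + P) (j + 2 * s + P + P) : ℤ)
      - t * Bs (aa ξ) (j + 2 * s + P) (j + 2 * s + P) + Bs (aa ξ) (j + 2 * s) (j + 2 * s)
      = Bs (aa ξ) (j + P + P) (j + P + P) - t * Bs (aa ξ) (j + P) (j + P) + Bs (aa ξ) j j := by
    intro j hj s
    induction s with
    | zero => simp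
    | succ s ih =>
      have h1 := ht (j + 2 * s + 1) (by omega)
      rw [show j + 2 * (s + 1) + P + P = j + 2 * s + P + P + 2 by ring,
        show j + 2 * (s + 1) + P = j + 2 * s + P + 2 by ring,
        show j + 2 * (s + 1) = j + 2 * s + 2 by ring, Bs_two, Bs_two, Bs_two, hm _ (by omega),
        hm _ (by omega), ← ih]
      rw [show j + 2 * s + 1 + P + P = j + 2 * s + P + P + 1 by ring,
        show j + 2 * s + 1 + P = j + 2 * s + P + 1 by ring] at h1
      push_cast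
      linear_combination (mark ξ (j + 2 * s) : ℤ) * h1
  refine ⟨L, hL0, t + 1, SS ξ n0 + 1, fun n hn => ?_⟩
  have hex : ∃ j, n ≤ SS ξ (j + 1) := ⟨3 * n, (le_SS h n).trans (hmono (by omega))⟩
  have h1 := Nat.find_spec hex
  have h2 : n0 ≤ Nat.find hex := by
    by_contra h2
    have := hmono (show Nat.find hex + 1 ≤ n0 by omega)
    omega
  have h3 : SS ξ (Nat.find hex) < n := by
    rcases h2.lt_or_eq with h3 | h3
    · have := Nat.find_min hex (show Nat.find hex - 1 < Nat.find hex by omega)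
      rw [show Nat.find hex - 1 + 1 = Nat.find hex by omega] at this
      omega
    · rw [← h3]; omega
  generalize Nat.find hex = j at h1 h2 h3
  rw [SS_succ] at h1
  obtain ⟨b, rfl⟩ := Nat.exists_eq_add_of_le h3.le
  have m1 := hm j h2
  have m2 := hm (j + P) (by omega)
  have m3 := hm (j + P + P) (by omega)
  have s1 := hS j h2
  have s2 := hS (j + P) (by omega)
  have s3 := hS (j + P + P) (by omega)
  rw [show SS ξ j + b + 3 * L = SS ξ (j + P + P + P) + b by omega,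
    show SS ξ j + b + 2 * L = SS ξ (j + P + P) + b by omega,
    show SS ξ j + b + L = SS ξ (j + P) + b by omega,
    nth_rr h _ (by omega) (by omega), nth_rr h _ (by omega) (by omega),
    nth_rr h _ (by omega) (by omega), nth_rr h _ (by omega) (by omega)]
  have d1 := hD j h2 (P / 2)
  rw [show j + 2 * (P / 2) = j + P by omega] at d1
  have q1 := ht (j + 1) (by omega)
  have q2 := ht (j + P + 1) (by omega)
  rw [show j + 1 + P + P = j + P + P + 1 by ring, show j + 1 + P = j + P + 1 by ring] at q1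
  rw [show j + P + 1 + P + P = j + P + P + P + 1 by ring,
    show j + P + 1 + P = j + P + P + 1 by ring] at q2
  simp only [rr]
  push_cast
  linear_combination d1 + (b : ℤ) * q2 - (b : ℤ) * q1

end Pool.Agent.Lib.MP_425be5_nt_X
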