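import Pool.Agent.Lib.MP_425be5_nt_X.Cat

/-!
The invariant of the tower words and its propagation from one level to the next.
-/

namespace Pool.Agent.Lib.MP_425be5_nt_X

open Pool.Agent.Lib.MP_425be5_nt

/-- The blocks of a long word of the next level. -/
def blk (W V : Bool → List ℤ) (β n : ℕ) (s : Bool) (i : ℕ) : List ℤ :=
  if i < n then W (side β i s) else V (side β i s)

/-- Closed form of the sum of the first `i` blocks. -/
def sig (lf lt : ℤ) (β : ℕ) (s : Bool) (i : ℕ) : ℤ :=
  if i ≤ β then i * lf else β * lf + (if s then lf else lt) + ((i : ℤ) - β - 1) * lt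

theorem cat_blk (W V : Bool → List ℤ) (β n : ℕ) (s : Bool) :
    ∀ j, j ≤ n → cat (blk W V β n s) j = pre W β s j
  | 0, _ => rfl
  | j + 1, h => by
    rw [cat, pre, cat_blk W V β n s j (by omega), blk, if_pos (by omega)]

theorem cat_blk_top (W V : Bool → List ℤ) (β n : ℕ) (s : Bool) :
    cat (blk W V β n s) (n + 1) = pre W β s n ++ V (side β n s) := by
  rw [cat, cat_blk W V β n s n le_rfl, blk, if_neg (by omega)]

theorem sum_pre (W : Bool → List ℤ) (β : ℕ) (s : Bool) (i : ℕ) :
    (pre W β s i).sum = sig (W false).sum (W true).sum β s i := by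
  rw [sig]
  split_ifs with h1 h2
  · exact pre_sum_le W β s i h1
  · obtain ⟨j, rfl⟩ : ∃ j, i = β + 1 + j := ⟨i - (β + 1), by omega⟩
    rw [pre_sum_gt, h2]
    simp only [Bool.not_true]
    push_cast
    ring
  · obtain ⟨j, rfl⟩ : ∃ j, i = β + 1 + j := ⟨i - (β + 1), by omega⟩
    rw [pre_sum_gt, Bool.eq_false_iff.mpr h2]
    simp only [Bool.not_false]
    push_cast
    ring

theorem nw_ub {W V : Bool → List ℤ} {β n : ℕ} {s : Bool} {U lf lt : ℤ} (hU : -1 ≤ U)
    (hf : (W false).sum = lf) (ht : (W true).sum = lt)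
    (h : ∀ i ≤ n, sig lf lt β s i + mx (blk W V β n s i) ≤ U) :
    mx (pre W β s n ++ V (side β n s)) ≤ U := by
  rw [← cat_blk_top]
  refine cat_ub hU _ (fun i hi => ?_)
  rw [cat_blk _ _ _ _ _ _ (by omega), sum_pre, hf, ht]
  exact h i (by omega)

/-- Description of the records of a long word from those of its first block. -/
def Desc (X Y : List ℤ) (q B m : ℕ) (H : ℤ) : Prop :=
  FA X (m * q + B) (H + m) ∧
    (∀ x < X.length, Rec (X.take x) ↔
      (x < Y.length ∧ Rec (Y.take x)) ∨ ∃ i, 1 ≤ i ∧ i ≤ m ∧ x = i * q + B) ∧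
    ∀ i ≤ m, (X.take (i * q + B)).sum = H + i

theorem nw_fa {W V : Bool → List ℤ} {β n q B m : ℕ} {s : Bool} {H lf lt : ℤ} (hn : 1 ≤ n)
    (hq : ∀ s, (W s).length = q) (hf : (W false).sum = lf) (ht : (W true).sum = lt) (hm : m ≤ n)
    (h1 : ∀ i ≤ m, sig lf lt β s i = i ∧ FA (blk W V β n s i) B H)
    (h2 : ∀ i ≤ n, m < i → sig lf lt β s i + mx (blk W V β n s i) ≤ H + m) :
    Desc (pre W β s n ++ V (side β n s)) (W (side β 0 s)) q B m H := by
  have := (cat_fa (V := blk W V β n s) (q := q) (B := B) (m := m) (H := H) n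
    (fun i hi => by rw [blk, if_pos hi, hq])
    (fun i hi him => by rw [cat_blk _ _ _ _ _ _ hi, sum_pre, hf, ht]; exact h1 i him)
    (fun i hi him => by rw [cat_blk _ _ _ _ _ _ hi, sum_pre, hf, ht]; exact h2 i hi him)).2
  rw [min_eq_right hm, cat_blk_top, blk, if_pos (by omega)] at this
  exact this

/-- The invariant: `r` says that the level is a rising one. -/
def Inv : Ty → Bool → (Bool → List ℤ) → (Bool → List ℤ) → ℕ → ℤ → Prop
  | .tL, _, W, V, B, H => FA (W false) B H ∧ FA (W true) B H ∧ mx (V true) ≤ H - 1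
  | .tM, true, W, V, B, H => FA (W false) B H ∧ FA (W true) B H ∧ FA (V true) B H
  | .tM, false, W, V, B, H => FA (W false) B H ∧ mx (W true) ≤ H + 1 ∧ mx (V true) ≤ H
  | .tN, true, W, V, B, H => FA (W true) B H ∧ mx (W false) ≤ H + 1 ∧ mx (V true) ≤ H
  | .tN, false, W, V, B, H => FA (W true) B H ∧ mx (W false) ≤ H - 1 ∧ mx (V true) ≤ H
  | .tP, true, W, V, B, H => FA (W false) B H ∧ mx (W true) ≤ H - 1 ∧ mx (V false) ≤ H ∧
      mx (V true) ≤ H - 1
  | .tP, false, W, V, B, H => FA (W false) B H ∧ mx (W true) ≤ H + 2 ∧ mx (V false) ≤ H ∧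
      mx (V true) ≤ H + 1

/-- The number of new records at a rising level. -/
def mk : Ty → ℕ → ℕ
  | .tL, a => a / 2
  | .tM, a => (a + 1) / 2
  | .tN, _ => 0
  | .tP, a => a / 2

theorem FA.mx_eq {W : List ℤ} {B : ℕ} {H : ℤ} (h : FA W B H) : mx W = H := h.2.2.2

/-- The number of new records at a level. -/
def mu1 (r : Bool) (t : Ty) (n : ℕ) : ℕ := if r then mk t n else 0

theorem desc_step (W V : Bool → List ℤ) (t : Ty) (r : Bool) (n q B : ℕ) (H : ℤ) (hn : 1 ≤ n)
    (hq : ∀ s, (W s).length = q)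
    (hs : SumInv t (if r then -1 else 1) (W false).sum (W true).sum (V false).sum (V true).sum)
    (h : Inv t r W V B H) :
    Desc (pre W (beta t n) (decide (nxt t n = .tN)) n ++
        V (side (beta t n) n (decide (nxt t n = .tN))))
      (W (side (beta t n) 0 (decide (nxt t n = .tN)))) q B (mu1 r t n) H := by
  by_cases hp : n % 2 = 0 <;> cases t <;> cases r <;>
    simp only [SumInv, Inv, Bool.false_eq_true, if_true, if_false] at hs h <;>
    obtain ⟨h1, h2, h3⟩ := h <;>
    have m1 := h1.mx_eq <;>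
    (try have m2 := FA.mx_eq h2) <;>
    (try have m3 := FA.mx_eq h3) <;>
    simp only [nxt, hp, if_true, if_false, mu1, mk, decide_true, decide_false, reduceCtorEq,
      Bool.false_eq_true] <;>
    refine nw_fa hn hq hs.1 hs.2.1 (by omega) (fun i hi => ?_) (fun i hi hm => ?_) <;>
    simp only [blk, side, sig, beta, Bool.not_true, Bool.not_false, Bool.false_eq_true,
      if_true, if_false] <;>
    split_ifs <;> first | omega | exact ⟨by omega, by assumption⟩

theorem inv_step (W V : Bool → List ℤ) (t : Ty) (r : Bool) (n q B : ℕ) (H : ℤ) (hn : 1 ≤ n)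
    (hH : 0 ≤ H) (hq : ∀ s, (W s).length = q)
    (hs : SumInv t (if r then -1 else 1) (W false).sum (W true).sum (V false).sum (V true).sum)
    (h : Inv t r W V B H) :
    Inv (nxt t n) (!r) (fun s => pre W (beta t n) s n ++ V (side (beta t n) n s))
      (fun s => W (side (beta t n) 0 s)) (mu1 r t n * q + B) (H + mu1 r t n) := by
  have k := (desc_step W V t r n q B H hn hq hs h).1
  by_cases hp : n % 2 = 0 <;> cases t <;> cases r <;>
    simp only [SumInv, Inv, Bool.false_eq_true, if_true, if_false] at hs h <;>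
    obtain ⟨h1, h2, h3⟩ := h <;>
    have m1 := h1.mx_eq <;>
    (try have m2 := FA.mx_eq h2) <;>
    (try have m3 := FA.mx_eq h3) <;>
    simp only [nxt, hp, if_true, if_false, Inv, mu1, mk, decide_true, decide_false, reduceCtorEq,
      Bool.not_true, Bool.not_false, Bool.false_eq_true, side_zero_true] at k ⊢ <;>
    refine ⟨k, ?_, ?_⟩ <;>
    first
      | omega
      | (simp only [beta, side_eq, Bool.not_false]; omega)
      | (rw [zero_mul, zero_add, Nat.cast_zero, add_zero]; exact h1)
      | (refine nw_ub (by omega) hs.1 hs.2.1 (fun i hi => ?_)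
         simp only [blk, side, sig, beta, Bool.not_true, Bool.not_false, Bool.false_eq_true,
            if_true, if_false]
         split_ifs <;> omega)
      | (refine (nw_fa hn hq hs.1 hs.2.1 (by omega) (fun i hi => ?_) (fun i hi hm => ?_)).1 <;>
          simp only [blk, side, sig, beta, Bool.not_true, Bool.not_false, Bool.false_eq_true,
            if_true, if_false] <;>
          split_ifs <;> first | omega | exact ⟨by omega, by assumption⟩)

end Pool.Agent.Lib.MP_425be5_nt_X
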